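import Pool.Agent.W2helper3.BQ.All3
import Pool.Agent.Y282.RB.Fin
import Pool.Agent.Y282.RB.K2
import Pool.Agent.Y282.RB.K3

/-!
# Powers of the Beurling operator: the exact bound on functions of angular degree `p ^ c`

For every `n ≥ 1` there is `c > 0` such that for all `p ≥ 2` the inequality of the question, with its
exact constant `(1/q)_n / (1/p)_n`, holds for all Schwartz functions `f (r e^{iθ}) = ∑ e^{ikθ} φ_k(r)`
with frequencies `k` in `[-N, N]`, `N + 2 ≤ p ^ c`, more generally in a set `S` with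
`(1 + #(S \ [-N, N])) log (N + 2) ≤ c log p` (for `N = 0`: at most `c' log p` arbitrary frequencies); if
`2 n ∈ S`, the constant is optimal for these functions.

Outline.  In logarithmic coordinates `u = log |z|²` the functions `∂̄ⁿ h` and `∂ⁿ h` become
`F = ∑ e^{i(k-2n)θ} ∏ (∂_u - α_{k,i}) ζ_k` and `G = ∑ e^{i(k-2n)θ} ∏ (∂_u - β_{k,i}) ζ_k`.  Only one of
the exponents is small, `α_{2n,0} = 1/p`; let `x` be the corresponding function, so that the mean of
`F` over the circle is `x - p x'`, and `Y = ± G / K`, where `K` is the constant.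
* `Y - x` is `1/K` times an operator applied to `F - x` whose kernel in the coordinates `(u, θ)` is
  `(1 - conj z)^(n-1) (1 - z)^(-n-1)`, `z = e^(-|v|/2 + iτ)`, up to finitely many modes.  Since the
  kernel is `O(‖1 - z‖^(-2))`, Hölder's inequality and a crude Nikolskii inequality give
  `p |Y - x| ≤ C q (average of |F - x|^q)^(1/q)` pointwise with `q = 3 log (N + 2)` (averages over the
  circle and over a measure in `u` with exponential moments), and `p |Y - x| ≤ C N (average of
  |F - x|^2)^(1/2)`.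
* Let `Δ = ‖F‖_p^p - ‖x‖_p^p`, which is the integral of the Bregman divergence `D(F, x) ≥ 0` of `|·|^p`,
  since `∫ |x|^{p-2} Re (conj x x') = 0`.  By the two bounds, convexity and a Gronwall inequality for
  `|x|^p`, the integrated divergence of `Y` from `x` is at most `(N ^ C / p) Δ`.
* The first-order term of `‖Y‖_p^p - ‖x‖_p^p` is a combination, with coefficients `O(1/p)`, of
  exponential averages of `p ∫ |x|^{p-2} Re conj x (x(· + v) - x)`, and a Gronwall argument bounds these
  by `(e^{v/p} - 1) Δ`.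
So `‖Y‖_p ≤ ‖F‖_p` for `N ≤ p ^ c`.
-/

set_option autoImplicit false

open MeasureTheory

namespace Pool.Agent.Results.MP_dd244f_an.PolynomiallyManyModes

/-- The `n`-th power of the Beurling transform: the Fourier multiplier with symbol
`(conj ξ / ξ) ^ n`, in the literal form of the frozen statement. -/
noncomputable def T (n : ℕ) (f : ℂ → ℂ) (z : ℂ) : ℂ :=
  ∫ ξ : ℂ,
    Complex.exp (2 * (Real.pi : ℂ) * Complex.I * (((z.re * ξ.re + z.im * ξ.im : ℝ)) : ℂ)) *
      ((starRingEnd ℂ ξ / ξ) ^ n *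
        ∫ x : ℂ, Complex.exp (-(2 * (Real.pi : ℂ) * Complex.I *
          (((x.re * ξ.re + x.im * ξ.im : ℝ)) : ℂ))) * f x)

/-- The constant `(1/q)_n / (1/p)_n` of the question. -/
noncomputable def K (n : ℕ) (p : ℝ) : ℝ :=
  (ascPochhammer ℝ n).eval (1 - 1 / p) / (ascPochhammer ℝ n).eval (1 / p)

/-- `f` has its angular frequencies in `S`: `f = ∑_{k ∈ S} g_k` with Schwartz functions `g_k` such that
`g_k (a z) = a ^ k g_k z` for `|a| = 1`, that is, `f (r e^{iθ}) = ∑_{k ∈ S} e^{ikθ} φ_k(r)`. -/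
def AngularFrequenciesIn (S : Finset ℤ) (f : SchwartzMap ℂ ℂ) : Prop :=
  ∃ g : ℤ → SchwartzMap ℂ ℂ,
    (∀ k ∈ S, ∀ a z : ℂ, ‖a‖ = 1 → g k (a * z) = a ^ k * g k z) ∧ f = ∑ k ∈ S, g k

/-- Let `n ≥ 1`.  There is `c > 0` such that for every real `p ≥ 2`, every `N` and every finite set `S`
of integers with `(1 + #(S \ [-N, N])) log (N + 2) ≤ c log p` (for example `S = [-N, N]` with
`N + 2 ≤ p ^ c`): every Schwartz function `f` with angular frequencies in `S` satisfies the inequality
of the question, `‖T ^ n f‖_p ≤ (1/q)_n / (1/p)_n ‖f‖_p`; and if `2 n ∈ S`, then no smaller constant is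
admissible for these functions (even for compactly supported ones). -/
theorem result (n : ℕ) (hn : 1 ≤ n) :
    ∃ c : ℝ, 0 < c ∧ ∀ (p : ℝ) (N : ℕ) (S : Finset ℤ), 2 ≤ p →
      (1 + ((S \ Finset.Icc (-(N : ℤ)) N).card : ℝ)) * Real.log (N + 2) ≤ c * Real.log p →
      (∀ f : SchwartzMap ℂ ℂ, AngularFrequenciesIn S f →
        eLpNorm (T n f) (ENNReal.ofReal p) (volume : Measure ℂ)
          ≤ ENNReal.ofReal (K n p) * eLpNorm f (ENNReal.ofReal p) (volume : Measure ℂ)) ∧
      ((2 * n : ℤ) ∈ S → ∀ b : ℝ, b < K n p →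
        ∃ f : SchwartzMap ℂ ℂ, HasCompactSupport f ∧ AngularFrequenciesIn S f ∧
          ENNReal.ofReal b * eLpNorm f (ENNReal.ofReal p) (volume : Measure ℂ)
            < eLpNorm (T n f) (ENNReal.ofReal p) (volume : Measure ℂ)) := by
  obtain ⟨c, hc, H⟩ := Pool.Agent.W2helper3.BQ.fin3 n hn
  refine ⟨c, hc, fun p N S hp2 hS => ?_⟩
  have hT : ∀ n f, T n f = Y282.RB.Tn n f := fun n f => rfl
  have hK : K n p = Y282.RB.Cn p n := (Y282.RB.K3.main n p (by linarith)).symm
  have hpos : 0 < Y282.RB.Cn p n := by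
    unfold Y282.RB.Cn
    refine Finset.prod_pos (fun j _ => ?_)
    have h1 : (1 : ℝ) / p < 1 := by
      rw [div_lt_one (by linarith)]; linarith
    have h2 : (0 : ℝ) < 1 / p := by positivity
    have h3 : (0 : ℝ) ≤ (j : ℝ) := Nat.cast_nonneg j
    apply div_pos <;> linarith
  refine ⟨fun f hf => ?_, fun hmem b hb => ?_⟩
  · obtain ⟨g, hg, rfl⟩ := hf
    rw [hT, hK]
    exact H p N S hp2 hS g fun k hk z a ha => hg k hk a z ha
  · rw [hK] at hb
    obtain ⟨g, hg, hs, hlt⟩ := Y282.RB.Fin.sharp n p (max b 0) hn (by linarith)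
      (le_max_right _ _) (max_lt hb hpos)
    obtain ⟨f, hf1, hf2, hf3⟩ := Y282.RB.K2.main n g hg hs
    refine ⟨f, hf3, ⟨fun k => if k = 2 * n then f else 0, fun k hk a z ha => ?_, ?_⟩, ?_⟩
    · by_cases hk : k = 2 * n
      · simp only [if_pos hk]
        rw [hk, hf2 a z ha]
        norm_cast
      · simp [if_neg hk]
    · rw [Finset.sum_ite_eq', if_pos hmem]
    · rw [hT, hf1]
      refine lt_of_le_of_lt ?_ hlt
      gcongr
      exact le_max_left _ _

end Pool.Agent.Results.MP_dd244f_an.PolynomiallyManyModes
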